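import Pool.Agent.Helper8.TB.St

/-! # Project TB, module SymF: `fd t + fd (-t) = 2` -/

set_option autoImplicit false

namespace Pool.Agent.Helper86.TB

open Pool.Helper8.TB MeasureTheory

theorem hSymF : StSymF := by
  intro m τ ε q q1 p r hm D t
  have h1 : HasDerivAt (fun s => q s ^ m + q (-s) ^ m)
      ((m : ℝ) * q t ^ (m - 1) * q1 t + (m : ℝ) * q (-t) ^ (m - 1) * (q1 (-t) * (-1))) t := by
    have h2 : HasDerivAt (fun s : ℝ => q (-s)) (q1 (-t) * (-1)) t :=
      HasDerivAt.comp t (D.hq (-t)) (hasDerivAt_neg t)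
    exact ((D.hq t).pow m).add (h2.pow m)
  have h3 : HasDerivAt (fun s => q s ^ m + q (-s) ^ m) 0 t := by
    have : (fun s => q s ^ m + q (-s) ^ m) = fun _ => (2 : ℝ) := funext D.sym
    rw [this]
    exact hasDerivAt_const t 2
  have h4 := h1.unique h3
  have hmR : (m : ℝ) ≠ 0 := by
    have : m ≠ 0 := by omega
    exact_mod_cast this
  have h5 : q1 t = -(t * r t) := by linear_combination D.hr t
  have h6 : q1 (-t) = t * r (-t) := by linear_combination D.hr (-t)
  have h7 : q t ^ (m - 1) * r t + q (-t) ^ (m - 1) * r (-t) = 0 := by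
    by_cases ht : t = 0
    · rw [ht, neg_zero, D.r0]
      ring
    · rw [h5, h6] at h4
      have h8 : (m : ℝ) * t * (q t ^ (m - 1) * r t + q (-t) ^ (m - 1) * r (-t)) = 0 := by
        linear_combination -h4
      rcases mul_eq_zero.1 h8 with h | h
      · rcases mul_eq_zero.1 h with h | h
        · exact absurd h hmR
        · exact absurd h ht
      · exact h
  obtain ⟨k, rfl⟩ : ∃ k, m = k + 1 := ⟨m - 1, by omega⟩
  have h9 := D.sym t
  unfold fd
  rw [Nat.add_sub_cancel] at h7 ⊢
  rw [pow_succ, pow_succ] at h9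
  linear_combination h9 + (1 - t ^ 2) * h7

end Pool.Agent.Helper86.TB
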